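import Mathlib

/-!
The pair process: a pair of integers `(x, 3 ^ d * x + δ)` moves by the shortcut Collatz map, and
the state `(d, δ)` is driven by the parity of `x`.
-/

namespace Pool.Agent.H70.Collatz

open Filter Topology

/-- The state after a step when `x` is even. -/
def stepE (z : ℕ × ℤ) : ℕ × ℤ :=
  if Even z.2 then (z.1, z.2 / 2) else (z.1 + 1, (3 * z.2 + 1) / 2)

/-- The state after a step when `x` is odd. -/
def stepO (z : ℕ × ℤ) : ℕ × ℤ :=
  if Even z.2 then (z.1, (3 * z.2 + 1 - 3 ^ z.1) / 2)
  else if z.1 = 0 then (1, (1 - 3 * z.2) / 2)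
  else (z.1 - 1, (z.2 - 3 ^ (z.1 - 1)) / 2)

/-- The probability that the state `(0, 0)` has not been reached after `k` fair coins. -/
noncomputable def U : ℕ → ℕ × ℤ → ℝ
  | 0, z => if z = (0, 0) then 0 else 1
  | k + 1, z => if z = (0, 0) then 0 else (U k (stepE z) + U k (stepO z)) / 2

/-- `(0, 0)` can be reached from `z`. -/
inductive Reach : ℕ × ℤ → Prop
  | base : Reach (0, 0)
  | e (z : ℕ × ℤ) : Reach (stepE z) → Reach z
  | o (z : ℕ × ℤ) : Reach (stepO z) → Reach z

lemma stepE_even {d : ℕ} (a : ℤ) : stepE (d, 2 * a) = (d, a) := by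
  have h : Even (2 * a) := even_two_mul a
  simp only [stepE]
  rw [if_pos h]
  congr 1
  omega

lemma stepE_odd {d : ℕ} (a : ℤ) : stepE (d, 2 * a + 1) = (d + 1, 3 * a + 2) := by
  have h : ¬ Even (2 * a + 1) := by
    rw [Int.not_even_iff_odd]; exact ⟨a, rfl⟩
  simp only [stepE]
  rw [if_neg h]
  congr 1
  omega

lemma stepO_odd_zero (a : ℤ) : stepO (0, 2 * a + 1) = (1, -3 * a - 1) := by
  have h : ¬ Even (2 * a + 1) := by
    rw [Int.not_even_iff_odd]; exact ⟨a, rfl⟩
  simp only [stepO]
  rw [if_neg h, if_pos trivial]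
  congr 1
  omega

lemma pow_three_odd (d : ℕ) : ∃ h : ℤ, (3 : ℤ) ^ d = 2 * h + 1 := by
  have : Odd ((3 : ℤ) ^ d) := Odd.pow ⟨1, by norm_num⟩
  exact this

lemma stepO_even {d : ℕ} (a h : ℤ) (hh : (3 : ℤ) ^ d = 2 * h + 1) :
    stepO (d, 2 * a) = (d, 3 * a - h) := by
  have h' : Even (2 * a) := even_two_mul a
  simp only [stepO]
  rw [if_pos h', hh]
  congr 1
  omega

lemma stepO_odd_succ {d : ℕ} (a h : ℤ) (hh : (3 : ℤ) ^ d = 2 * h + 1) :
    stepO (d + 1, 2 * a + 1) = (d, a - h) := by
  have h' : ¬ Even (2 * a + 1) := by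
    rw [Int.not_even_iff_odd]; exact ⟨a, rfl⟩
  simp only [stepO]
  rw [if_neg h', if_neg (Nat.succ_ne_zero d), Nat.add_sub_cancel, hh]
  congr 1
  omega

lemma reach_zero : ∀ n : ℕ, ∀ δ : ℤ, δ.natAbs = n → Reach (0, δ) := by
  intro n
  induction n using Nat.strong_induction_on with
  | _ n ih =>
    intro δ hδ
    by_cases h0 : δ = 0
    · subst h0; exact Reach.base
    rcases Int.even_or_odd' δ with ⟨a, ha | ha⟩
    · -- even
      apply Reach.e
      rw [ha, stepE_even]
      exact ih a.natAbs (by omega) a rfl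
    · -- odd
      by_cases h1 : δ = 1
      · subst h1
        apply Reach.e
        have e1 : stepE (0, (1 : ℤ)) = (1, 2) := by
          have := stepE_odd (d := 0) 0
          simpa using this
        rw [e1]
        apply Reach.e
        have e2 : stepE (1, (2 : ℤ)) = (1, 1) := by
          have := stepE_even (d := 1) 1
          simpa using this
        rw [e2]
        apply Reach.o
        have e3 : stepO (1, (1 : ℤ)) = (0, 0) := by
          have := stepO_odd_succ (d := 0) 0 0 (by norm_num)
          simpa using this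
        rw [e3]
        exact Reach.base
      by_cases h2 : δ = -1
      · subst h2
        apply Reach.o
        have e1 : stepO (0, (-1 : ℤ)) = (1, 2) := by
          have := stepO_odd_zero (-1)
          simpa using this
        rw [e1]
        apply Reach.e
        have e2 : stepE (1, (2 : ℤ)) = (1, 1) := by
          have := stepE_even (d := 1) 1
          simpa using this
        rw [e2]
        apply Reach.o
        have e3 : stepO (1, (1 : ℤ)) = (0, 0) := by
          have := stepO_odd_succ (d := 0) 0 0 (by norm_num)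
          simpa using this
        rw [e3]
        exact Reach.base
      rcases Int.even_or_odd' a with ⟨b, hb | hb⟩
      · -- δ = 4 b + 1
        apply Reach.o
        rw [ha, stepO_odd_zero]
        apply Reach.o
        have e : (-3 * a - 1 : ℤ) = 2 * (-3 * b - 1) + 1 := by rw [hb]; ring
        rw [e]
        have e3 := stepO_odd_succ (d := 0) (-3 * b - 1) 0 (by norm_num)
        rw [zero_add] at e3
        rw [e3]
        exact ih _ (by omega) _ rfl
      · -- δ = 4 b + 3
        apply Reach.e
        rw [ha, stepE_odd]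
        apply Reach.o
        have e : (3 * a + 2 : ℤ) = 2 * (3 * b + 2) + 1 := by rw [hb]; ring
        rw [e]
        have e3 := stepO_odd_succ (d := 0) (3 * b + 2) 0 (by norm_num)
        rw [e3]
        exact ih _ (by omega) _ rfl

lemma reach_succ (d : ℕ) (hd : ∀ δ : ℤ, Reach (d, δ)) :
    ∀ n : ℕ, ∀ δ : ℤ, δ ≠ 0 → δ.natAbs = n → Reach (d + 1, δ) := by
  intro n
  induction n using Nat.strong_induction_on with
  | _ n ih =>
    intro δ h0 hδ
    rcases Int.even_or_odd' δ with ⟨a, ha | ha⟩
    · apply Reach.e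
      rw [ha, stepE_even]
      exact ih a.natAbs (by omega) a (by omega) rfl
    · apply Reach.o
      obtain ⟨h, hh⟩ := pow_three_odd d
      rw [ha, stepO_odd_succ a h hh]
      exact hd _

/-- Every state can reach `(0, 0)`. -/
theorem reach_all : ∀ z : ℕ × ℤ, Reach z := by
  have key : ∀ d : ℕ, ∀ δ : ℤ, Reach (d, δ) := by
    intro d
    induction d with
    | zero => intro δ; exact reach_zero _ δ rfl
    | succ d ih =>
      intro δ
      by_cases h0 : δ = 0
      · subst h0
        apply Reach.o
        obtain ⟨h, hh⟩ := pow_three_odd (d + 1)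
        have e : stepO (d + 1, (0 : ℤ)) = (d + 1, -h) := by
          have := stepO_even (d := d + 1) 0 h hh
          simpa using this
        rw [e]
        refine reach_succ d ih _ _ ?_ rfl
        have : (1 : ℤ) < 3 ^ (d + 1) := one_lt_pow₀ (by norm_num) (Nat.succ_ne_zero d)
        omega
      · exact reach_succ d ih _ δ h0 rfl
  rintro ⟨d, δ⟩
  exact key d δ

lemma U_zero_state (k : ℕ) : U k (0, 0) = 0 := by
  cases k <;> simp [U]

lemma U_nonneg : ∀ k z, 0 ≤ U k z := by
  intro k
  induction k with
  | zero => intro z; simp only [U]; split_ifs <;> norm_num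
  | succ k ih =>
    intro z
    simp only [U]
    split_ifs
    · exact le_rfl
    · have := ih (stepE z); have := ih (stepO z); linarith

lemma U_le_one : ∀ k z, U k z ≤ 1 := by
  intro k
  induction k with
  | zero => intro z; simp only [U]; split_ifs <;> norm_num
  | succ k ih =>
    intro z
    simp only [U]
    split_ifs
    · norm_num
    · have := ih (stepE z); have := ih (stepO z); linarith

lemma U_succ_le : ∀ k z, U (k + 1) z ≤ U k z := by
  intro k
  induction k with
  | zero =>
    intro z
    by_cases h : z = (0, 0)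
    · subst h; rw [U_zero_state, U_zero_state]
    · have e : U 0 z = 1 := by simp [U, h]
      rw [e]; exact U_le_one 1 z
  | succ k ih =>
    intro z
    by_cases h : z = (0, 0)
    · subst h; rw [U_zero_state, U_zero_state]
    · have e1 : U (k + 2) z = (U (k + 1) (stepE z) + U (k + 1) (stepO z)) / 2 := by
        rw [U, if_neg h]
      have e2 : U (k + 1) z = (U k (stepE z) + U k (stepO z)) / 2 := by
        rw [U, if_neg h]
      rw [e1, e2]
      have := ih (stepE z); have := ih (stepO z); linarith

/-- The probability that `(0, 0)` is never reached. -/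
noncomputable def u (z : ℕ × ℤ) : ℝ := ⨅ k, U k z

lemma U_tendsto (z : ℕ × ℤ) : Tendsto (fun k => U k z) atTop (𝓝 (u z)) := by
  apply tendsto_atTop_ciInf
  · exact antitone_nat_of_succ_le (fun k => U_succ_le k z)
  · exact ⟨0, by rintro _ ⟨k, rfl⟩; exact U_nonneg k z⟩

lemma u_nonneg (z : ℕ × ℤ) : 0 ≤ u z := le_ciInf (fun k => U_nonneg k z)

lemma u_le_one (z : ℕ × ℤ) : u z ≤ 1 :=
  le_of_tendsto (U_tendsto z) (Eventually.of_forall fun k => U_le_one k z)

lemma u_zero : u (0, 0) = 0 := by
  have h := U_tendsto (0, 0)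
  have e : (fun k => U k (0, 0)) = fun _ => 0 := funext fun k => U_zero_state k
  rw [e] at h
  exact tendsto_nhds_unique h tendsto_const_nhds

lemma u_harm (z : ℕ × ℤ) (hz : z ≠ (0, 0)) : u z = (u (stepE z) + u (stepO z)) / 2 := by
  have h1 : Tendsto (fun k => U (k + 1) z) atTop (𝓝 (u z)) :=
    (U_tendsto z).comp (tendsto_add_atTop_nat 1)
  have h2 : Tendsto (fun k => U (k + 1) z) atTop (𝓝 ((u (stepE z) + u (stepO z)) / 2)) := by
    have e : (fun k => U (k + 1) z) = fun k => (U k (stepE z) + U k (stepO z)) / 2 := by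
      funext k
      rw [U, if_neg hz]
    rw [e]
    exact ((U_tendsto _).add (U_tendsto _)).div_const 2
  exact tendsto_nhds_unique h1 h2

lemma reach_bound {z : ℕ × ℤ} (hz : Reach z) :
    ∃ c : ℝ, 0 < c ∧ c ≤ 1 ∧ ∀ q : ℝ, 0 ≤ q → (∀ w, u w ≤ q) → u z ≤ (1 - c) * q := by
  induction hz with
  | base => exact ⟨1, by norm_num, le_rfl, fun q hq _ => by rw [u_zero]; simp⟩
  | e z _ ih =>
    obtain ⟨c, hc, hc1, h⟩ := ih
    by_cases h0 : z = (0, 0)
    · subst h0
      exact ⟨1, by norm_num, le_rfl, fun q hq _ => by rw [u_zero]; simp⟩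
    · refine ⟨c / 2, by linarith, by linarith, fun q hq hw => ?_⟩
      rw [u_harm z h0]
      have h1 := h q hq hw
      have h2 := hw (stepO z)
      linarith
  | o z _ ih =>
    obtain ⟨c, hc, hc1, h⟩ := ih
    by_cases h0 : z = (0, 0)
    · subst h0
      exact ⟨1, by norm_num, le_rfl, fun q hq _ => by rw [u_zero]; simp⟩
    · refine ⟨c / 2, by linarith, by linarith, fun q hq hw => ?_⟩
      rw [u_harm z h0]
      have h1 := h q hq hw
      have h2 := hw (stepE z)
      linarith

lemma reach_bound_finset (F : Finset (ℕ × ℤ)) :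
    ∃ c : ℝ, 0 < c ∧ c ≤ 1 ∧ ∀ q : ℝ, 0 ≤ q → (∀ w, u w ≤ q) →
      ∀ z ∈ F, u z ≤ (1 - c) * q := by
  classical
  induction F using Finset.induction_on with
  | empty => exact ⟨1, by norm_num, le_rfl, fun q _ _ z hz => by simp at hz⟩
  | insert a s _ ih =>
    obtain ⟨c, hc, hc1, h⟩ := ih
    obtain ⟨c', hc', hc1', h'⟩ := reach_bound (reach_all a)
    refine ⟨min c c', lt_min hc hc', min_le_of_left_le hc1, fun q hq hw z hz => ?_⟩
    rw [Finset.mem_insert] at hz
    rcases hz with rfl | hz
    · have h1 := h' q hq hw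
      have h2 : min c c' * q ≤ c' * q := mul_le_mul_of_nonneg_right (min_le_right _ _) hq
      linarith
    · have h1 := h q hq hw z hz
      have h2 : min c c' * q ≤ c * q := mul_le_mul_of_nonneg_right (min_le_left _ _) hq
      linarith

/-- Maximum principle with a Lyapunov function. -/
theorem u_eq_zero_of_lyapunov (F : Finset (ℕ × ℤ)) (W : ℕ × ℤ → ℝ)
    (hW0 : ∀ z, 0 ≤ W z) (hfin : ∀ K : ℝ, {z | W z ≤ K}.Finite)
    (hsup : ∀ z, z ∉ F → z ≠ (0, 0) → (W (stepE z) + W (stepO z)) / 2 ≤ W z) :
    ∀ z, u z = 0 := by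
  have hbdd : BddAbove (Set.range u) := ⟨1, by rintro _ ⟨z, rfl⟩; exact u_le_one z⟩
  set q : ℝ := ⨆ z, u z with hq
  have huq : ∀ w, u w ≤ q := fun w => le_ciSup hbdd w
  have hq0 : 0 ≤ q := (u_nonneg (0, 0)).trans (huq _)
  obtain ⟨c, hc, hc1, hF⟩ := reach_bound_finset F
  have hF' := hF q hq0 huq
  set b : ℝ := (1 - c) * q with hb
  have hb0 : 0 ≤ b := mul_nonneg (by linarith) hq0
  have key : ∀ z, u z ≤ b := by
    by_contra hcon
    push Not at hcon
    obtain ⟨z0, hz0⟩ := hcon
    set η : ℝ := u z0 - b with hη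
    have hηpos : 0 < η := by rw [hη]; linarith
    set ε : ℝ := η / (2 * (W z0 + 1)) with hε
    have hW1 : 0 < W z0 + 1 := by have := hW0 z0; linarith
    have hεpos : 0 < ε := by rw [hε]; positivity
    have hεW : ε * W z0 ≤ η / 2 := by
      rw [hε, div_mul_eq_mul_div, div_le_iff₀ (by positivity)]
      nlinarith [hW0 z0]
    set g : ℕ × ℤ → ℝ := fun z => u z - b - ε * W z with hg
    have hgz0 : 0 < g z0 := by
      have : g z0 = η - ε * W z0 := by rw [hg, hη]
      rw [this]; linarith
    have hSfin : {z | g z0 ≤ g z}.Finite := by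
      apply (hfin (1 / ε)).subset
      intro z hz
      have hz' : g z0 ≤ u z - b - ε * W z := hz
      show W z ≤ 1 / ε
      rw [le_div_iff₀ hεpos]
      have := u_le_one z
      linarith
    obtain ⟨zs, hzs, hmax⟩ := Set.exists_max_image _ g hSfin ⟨z0, (le_refl (g z0) : g z0 ≤ g z0)⟩
    have hmax' : ∀ z, g z ≤ g zs := by
      intro z
      by_cases h : g z0 ≤ g z
      · exact hmax z h
      · push Not at h
        exact h.le.trans hzs
    have hμ : 0 < g zs := lt_of_lt_of_le hgz0 hzs
    have hstep : ∀ z, g z = g zs → g (stepE z) = g zs ∧ g (stepO z) = g zs := by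
      intro z hz
      have hz0' : z ≠ (0, 0) := by
        rintro rfl
        have h1 : g (0, 0) = 0 - b - ε * W (0, 0) := by rw [hg]; simp only [u_zero]
        have h2 : 0 ≤ ε * W (0, 0) := mul_nonneg hεpos.le (hW0 _)
        linarith
      have hzF : z ∉ F := by
        intro hzF
        have h1 := hF' z hzF
        have h2 : 0 ≤ ε * W z := mul_nonneg hεpos.le (hW0 _)
        have h3 : g z = u z - b - ε * W z := rfl
        linarith
      have h1 := hsup z hzF hz0'
      have h2 := u_harm z hz0'
      have h3 : g z = u z - b - ε * W z := rfl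
      have h4 : g (stepE z) = u (stepE z) - b - ε * W (stepE z) := rfl
      have h5 : g (stepO z) = u (stepO z) - b - ε * W (stepO z) := rfl
      have h6 := hmax' (stepE z)
      have h7 := hmax' (stepO z)
      have h8 : ε * ((W (stepE z) + W (stepO z)) / 2) ≤ ε * W z :=
        mul_le_mul_of_nonneg_left h1 hεpos.le
      constructor <;> linarith
    have hno : ∀ z, Reach z → g z ≠ g zs := by
      intro z hz
      induction hz with
      | base =>
        have h1 : g (0, 0) = 0 - b - ε * W (0, 0) := by rw [hg]; simp only [u_zero]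
        have h2 : 0 ≤ ε * W (0, 0) := mul_nonneg hεpos.le (hW0 _)
        intro h; linarith
      | e z _ ih => exact fun h => ih (hstep z h).1
      | o z _ ih => exact fun h => ih (hstep z h).2
    exact hno zs (reach_all zs) rfl
  have hqb : q ≤ b := ciSup_le key
  have hq00 : q ≤ 0 := by
    have : c * q ≤ 0 := by rw [hb] at hqb; linarith
    by_contra hpos
    push Not at hpos
    have := mul_pos hc hpos
    linarith
  intro z
  exact le_antisymm ((huq z).trans hq00) (u_nonneg z)

end Pool.Agent.H70.Collatz
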