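import Pool.Agent.H70.Collatz.Lyap

/-!
Counting residue classes on which the pair process has not coalesced, and the link with the
Collatz map.
-/

namespace Pool.Agent.H70.Collatz

open Filter Topology

/-- The pair `(x, 3 ^ d * x + δ)` has not coalesced within `k` shortcut steps. -/
def nc : ℕ → ℤ → ℕ × ℤ → Prop
  | 0, _, z => z ≠ (0, 0)
  | k + 1, x, z => z ≠ (0, 0) ∧
      if Even x then nc k (x / 2) (stepE z)
      else nc k (if z.1 = 0 ∧ ¬ Even z.2 then (x + z.2) / 2 else (3 * x + 1) / 2) (stepO z)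

lemma nc_periodic : ∀ (k : ℕ) (x m : ℤ) (z : ℕ × ℤ), nc k (x + 2 ^ k * m) z ↔ nc k x z := by
  intro k
  induction k with
  | zero => intro x m z; rfl
  | succ k ih =>
    intro x m z
    simp only [nc]
    apply and_congr_right
    intro _
    have e0 : x + 2 ^ (k + 1) * m = x + 2 * (2 ^ k * m) := by ring
    have hpar : Even (x + 2 ^ (k + 1) * m) ↔ Even x := by
      rw [e0, Int.even_add]; simp
    by_cases hx : Even x
    · rw [if_pos (hpar.mpr hx), if_pos hx, ← ih (x / 2) m]
      have : (x + 2 ^ (k + 1) * m) / 2 = x / 2 + 2 ^ k * m := by rw [e0]; omega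
      rw [this]
    · rw [if_neg (fun h => hx (hpar.mp h)), if_neg hx]
      by_cases hz : z.1 = 0 ∧ ¬ Even z.2
      · rw [if_pos hz, if_pos hz, ← ih ((x + z.2) / 2) m]
        have : (x + 2 ^ (k + 1) * m + z.2) / 2 = (x + z.2) / 2 + 2 ^ k * m := by rw [e0]; omega
        rw [this]
      · rw [if_neg hz, if_neg hz, ← ih ((3 * x + 1) / 2) (3 * m)]
        have : (3 * (x + 2 ^ (k + 1) * m) + 1) / 2 = (3 * x + 1) / 2 + 2 ^ k * (3 * m) := by
          have e1 : 3 * (x + 2 ^ (k + 1) * m) + 1 = 3 * x + 1 + 2 * (2 ^ k * (3 * m)) := by ring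
          rw [e1]; omega
        rw [this]

open Classical in
/-- Number of residues modulo `2 ^ k` for which the process has not coalesced. -/
noncomputable def cnt (k : ℕ) (z : ℕ × ℤ) : ℕ :=
  ((Finset.range (2 ^ k)).filter (fun r : ℕ => nc k (r : ℤ) z)).card

open Classical in
lemma cnt_affine (k : ℕ) (z : ℕ × ℤ) (a c : ℤ) (ha : Odd a) :
    ((Finset.range (2 ^ k)).filter (fun r : ℕ => nc k (a * r + c) z)).card ≤ cnt k z := by
  rw [cnt]
  apply Finset.card_le_card_of_injOn (fun r : ℕ => ((a * r + c) % 2 ^ k).toNat)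
  · intro r hr
    rw [Finset.mem_coe, Finset.mem_filter, Finset.mem_range] at hr ⊢
    have hpos : (0 : ℤ) < 2 ^ k := by positivity
    have h1 := Int.emod_nonneg (a * r + c) hpos.ne'
    have h2 := Int.emod_lt_of_pos (a * r + c) hpos
    have h3 : (((a * r + c) % 2 ^ k).toNat : ℤ) = (a * r + c) % 2 ^ k := Int.toNat_of_nonneg h1
    constructor
    · have : (((a * r + c) % 2 ^ k).toNat : ℤ) < ((2 ^ k : ℕ) : ℤ) := by
        rw [h3]; push_cast; exact h2
      exact_mod_cast this
    · beta_reduce
      rw [h3]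
      have h4 : (a * r + c) = (a * r + c) % 2 ^ k + 2 ^ k * ((a * r + c) / 2 ^ k) :=
        (Int.emod_add_mul_ediv _ _).symm
      rw [← nc_periodic k _ ((a * r + c) / 2 ^ k) z, ← h4]
      exact hr.2
  · intro r hr s hs hrs
    rw [Finset.mem_coe, Finset.mem_filter, Finset.mem_range] at hr hs
    have hpos : (0 : ℤ) < 2 ^ k := by positivity
    have h1 := Int.emod_nonneg (a * r + c) hpos.ne'
    have h1' := Int.emod_nonneg (a * s + c) hpos.ne'
    have hrs' : ((a * r + c) % 2 ^ k).toNat = ((a * s + c) % 2 ^ k).toNat := hrs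
    have h2 : (a * r + c) % 2 ^ k = (a * s + c) % 2 ^ k := by omega
    have h2' : (a * s + c) ≡ (a * r + c) [ZMOD 2 ^ k] := h2.symm
    have h3 : (2 : ℤ) ^ k ∣ (a * r + c) - (a * s + c) := h2'.dvd
    have h4 : (2 : ℤ) ^ k ∣ a * ((r : ℤ) - s) := by
      have : (a * r + c) - (a * s + c) = a * ((r : ℤ) - s) := by ring
      rwa [this] at h3
    have hcop : IsCoprime ((2 : ℤ) ^ k) a := by
      apply IsCoprime.pow_left
      obtain ⟨b, hb⟩ := ha
      exact ⟨-b, 1, by rw [hb]; ring⟩
    have h5 : (2 : ℤ) ^ k ∣ (r : ℤ) - s := hcop.dvd_of_dvd_mul_left h4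
    have hr' : (r : ℤ) < 2 ^ k := by exact_mod_cast hr.1
    have hs' : (s : ℤ) < 2 ^ k := by exact_mod_cast hs.1
    have h6 : (r : ℤ) - s = 0 := by
      apply Int.eq_zero_of_abs_lt_dvd h5
      rw [abs_lt]; constructor <;> omega
    omega

lemma cnt_le (k : ℕ) : ∀ z, (cnt k z : ℝ) ≤ 2 ^ k * U k z := by
  classical
  induction k with
  | zero =>
    intro z
    by_cases hz : z = (0, 0)
    · subst hz
      simp [cnt, nc, U]
    · have h1 : cnt 0 z ≤ 1 := by
        rw [cnt]
        refine (Finset.card_filter_le _ _).trans ?_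
        simp
      have h2 : U 0 z = 1 := by simp [U, hz]
      rw [h2]
      have : (cnt 0 z : ℝ) ≤ 1 := by exact_mod_cast h1
      simpa using this
  | succ k ih =>
    intro z
    by_cases hz : z = (0, 0)
    · subst hz
      rw [U_zero_state]
      simp [cnt, nc]
    · have hU : U (k + 1) z = (U k (stepE z) + U k (stepO z)) / 2 := by rw [U, if_neg hz]
      obtain ⟨a, c, ha, hac⟩ : ∃ a c : ℤ, Odd a ∧ ∀ r : ℤ,
          (if z.1 = 0 ∧ ¬ Even z.2 then (2 * r + 1 + z.2) / 2 else (3 * (2 * r + 1) + 1) / 2)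
            = a * r + c := by
        by_cases h : z.1 = 0 ∧ ¬ Even z.2
        · refine ⟨1, (1 + z.2) / 2, odd_one, fun r => ?_⟩
          rw [if_pos h]; omega
        · refine ⟨3, 2, ⟨1, by norm_num⟩, fun r => ?_⟩
          rw [if_neg h]; omega
      have hsub : (Finset.range (2 ^ (k + 1))).filter (fun r : ℕ => nc (k + 1) (r : ℤ) z) ⊆
          ((Finset.range (2 ^ k)).filter (fun r : ℕ => nc k (r : ℤ) (stepE z))).image
            (fun r => 2 * r) ∪
          ((Finset.range (2 ^ k)).filter (fun r : ℕ => nc k (a * r + c) (stepO z))).image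
            (fun r => 2 * r + 1) := by
        intro r hr
        rw [Finset.mem_filter, Finset.mem_range, pow_succ] at hr
        obtain ⟨hr1, _, hr2⟩ := hr
        rw [Finset.mem_union, Finset.mem_image, Finset.mem_image]
        rcases Nat.even_or_odd' r with ⟨s, hs | hs⟩
        · left
          refine ⟨s, ?_, hs.symm⟩
          rw [Finset.mem_filter, Finset.mem_range]
          refine ⟨by omega, ?_⟩
          have he : Even (r : ℤ) := by rw [hs]; push_cast; exact even_two_mul _
          rw [if_pos he] at hr2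
          have : (r : ℤ) / 2 = (s : ℤ) := by omega
          rwa [this] at hr2
        · right
          refine ⟨s, ?_, hs.symm⟩
          rw [Finset.mem_filter, Finset.mem_range]
          refine ⟨by omega, ?_⟩
          have he : ¬ Even (r : ℤ) := by
            rw [Int.not_even_iff_odd, hs]; push_cast; exact ⟨s, rfl⟩
          rw [if_neg he] at hr2
          have e : (r : ℤ) = 2 * (s : ℤ) + 1 := by rw [hs]; push_cast; ring
          rw [e, hac s] at hr2
          exact hr2
      have h1 : cnt (k + 1) z ≤ cnt k (stepE z) + cnt k (stepO z) := by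
        rw [cnt]
        refine (Finset.card_le_card hsub).trans ((Finset.card_union_le _ _).trans ?_)
        apply Nat.add_le_add
        · exact Finset.card_image_le
        · exact Finset.card_image_le.trans (cnt_affine k (stepO z) a c ha)
      have h2 : (cnt (k + 1) z : ℝ) ≤ cnt k (stepE z) + cnt k (stepO z) := by exact_mod_cast h1
      rw [hU]
      have h3 := ih (stepE z)
      have h4 := ih (stepO z)
      rw [pow_succ]
      linarith

/-- Number of `n < M * 2 ^ k` for which the process has not coalesced. -/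
lemma block_count (k : ℕ) (z : ℕ × ℤ) (M : ℕ) [DecidablePred fun n : ℕ => nc k (n : ℤ) z] :
    ((Finset.range (M * 2 ^ k)).filter (fun n : ℕ => nc k (n : ℤ) z)).card ≤ M * cnt k z := by
  classical
  induction M with
  | zero => simp
  | succ M ih =>
    have hsub : (Finset.range ((M + 1) * 2 ^ k)).filter (fun n : ℕ => nc k (n : ℤ) z) ⊆
        (Finset.range (M * 2 ^ k)).filter (fun n : ℕ => nc k (n : ℤ) z) ∪
        ((Finset.range (2 ^ k)).filter (fun r : ℕ => nc k (r : ℤ) z)).image
          (fun r => r + M * 2 ^ k) := by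
      intro n hn
      rw [Finset.mem_filter, Finset.mem_range, add_mul, one_mul] at hn
      rw [Finset.mem_union, Finset.mem_filter, Finset.mem_range, Finset.mem_image]
      by_cases h : n < M * 2 ^ k
      · left; exact ⟨h, hn.2⟩
      · right
        refine ⟨n - M * 2 ^ k, ?_, by omega⟩
        rw [Finset.mem_filter, Finset.mem_range]
        refine ⟨by omega, ?_⟩
        have e : ((n - M * 2 ^ k : ℕ) : ℤ) = n + 2 ^ k * (-(M : ℤ)) := by
          rw [Nat.cast_sub (by omega)]; push_cast; ring
        rw [e, nc_periodic]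
        exact hn.2
    refine (Finset.card_le_card hsub).trans ((Finset.card_union_le _ _).trans ?_)
    have h1 : (((Finset.range (2 ^ k)).filter (fun r : ℕ => nc k (r : ℤ) z)).image
          (fun r => r + M * 2 ^ k)).card ≤ cnt k z := by
      refine Finset.card_image_le.trans ?_
      rw [cnt]
      apply le_of_eq
      congr!
    rw [add_mul, one_mul]
    exact Nat.add_le_add ih h1

/-- The Collatz map. -/
def C (n : ℕ) : ℕ := if n % 2 = 0 then n / 2 else 3 * n + 1

lemma C_even {n : ℕ} (h : n % 2 = 0) : C n = n / 2 := by rw [C, if_pos h]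

lemma CC_odd {n : ℕ} (h : n % 2 = 1) : C (C n) = (3 * n + 1) / 2 := by
  have h1 : C n = 3 * n + 1 := by rw [C, if_neg (by omega)]
  rw [h1, C_even (by omega)]

/-- No visit to `1` before time `p`. -/
def NoHit (n p : ℕ) : Prop := ∀ i < p, C^[i] n ≠ 1

lemma noHit_zero (n : ℕ) : NoHit n 0 := fun i hi => absurd hi (Nat.not_lt_zero i)

lemma noHit_one {n p : ℕ} (hn : n ≠ 1) (h : NoHit (C n) p) : NoHit n (p + 1) := by
  intro i hi
  cases i with
  | zero => simpa using hn
  | succ i =>
    rw [Function.iterate_succ_apply]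
    exact h i (by omega)

lemma noHit_two {n p : ℕ} (hn : n ≠ 1) (hodd : n % 2 = 1) (h : NoHit (C (C n)) p) :
    NoHit n (p + 2) := by
  apply noHit_one hn
  apply noHit_one _ h
  have h1 : C n = 3 * n + 1 := by rw [C, if_neg (by omega)]
  omega

lemma coal : ∀ (k : ℕ) (x y : ℕ) (d : ℕ) (δ : ℤ), (y : ℤ) = 3 ^ d * x + δ → 2 ^ k < x → 2 ^ k < y →
    ¬ nc k (x : ℤ) (d, δ) →
    ∃ p q : ℕ, p = q + d ∧ C^[p] x = C^[q] y ∧ NoHit x p ∧ NoHit y q := by
  intro k
  induction k with
  | zero =>
    intro x y d δ hy hx1 hy1 hnc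
    have hz : ((d, δ) : ℕ × ℤ) = (0, 0) := by
      by_contra h
      exact hnc h
    rw [Prod.mk.injEq] at hz
    obtain ⟨rfl, rfl⟩ := hz
    have hxy : y = x := by
      have : (y : ℤ) = x := by rw [hy]; ring
      exact_mod_cast this
    subst hxy
    exact ⟨0, 0, rfl, rfl, noHit_zero _, noHit_zero _⟩
  | succ k ih =>
    intro x y d δ hy hx1 hy1 hnc
    by_cases hz : ((d, δ) : ℕ × ℤ) = (0, 0)
    · rw [Prod.mk.injEq] at hz
      obtain ⟨rfl, rfl⟩ := hz
      have hxy : y = x := by
        have : (y : ℤ) = x := by rw [hy]; ring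
        exact_mod_cast this
      subst hxy
      exact ⟨0, 0, rfl, rfl, noHit_zero _, noHit_zero _⟩
    · have hpow : 2 ^ (k + 1) = 2 * 2 ^ k := by ring
      have hk1 : 1 ≤ 2 ^ k := Nat.one_le_two_pow
      rw [hpow] at hx1 hy1
      have hx0 : x ≠ 1 := by omega
      have hy0 : y ≠ 1 := by omega
      have hnc' : ¬ (if Even (x : ℤ) then nc k ((x : ℤ) / 2) (stepE (d, δ))
          else nc k (if d = 0 ∧ ¬ Even δ then ((x : ℤ) + δ) / 2
            else (3 * (x : ℤ) + 1) / 2) (stepO (d, δ))) := by
        intro h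
        exact hnc ⟨hz, h⟩
      obtain ⟨h3, hh3⟩ := pow_three_odd d
      rcases Nat.even_or_odd' x with ⟨s, hs | hs⟩
      · -- x even
        have he : Even (x : ℤ) := by rw [hs]; push_cast; exact even_two_mul _
        rw [if_pos he] at hnc'
        have ex : (x : ℤ) / 2 = (s : ℤ) := by omega
        rw [ex] at hnc'
        have hCx : C x = s := by rw [C_even (by omega)]; omega
        rcases Int.even_or_odd' δ with ⟨a, ha | ha⟩
        · -- δ even, y even
          rw [ha, stepE_even] at hnc'
          have hy2 : (y : ℤ) = 2 * (3 ^ d * s + a) := by rw [hy, hs, ha]; push_cast; ring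
          have hymod : y % 2 = 0 := by omega
          have hyt : ((y / 2 : ℕ) : ℤ) = 3 ^ d * s + a := by omega
          have hCy : C y = y / 2 := C_even hymod
          obtain ⟨p, q, hpq, hC, n1, n2⟩ := ih s (y / 2) d a hyt (by omega) (by omega) hnc'
          refine ⟨p + 1, q + 1, by omega, ?_, ?_, ?_⟩
          · rw [Function.iterate_succ_apply, Function.iterate_succ_apply, hCx, hCy, hC]
          · exact noHit_one hx0 (by rw [hCx]; exact n1)
          · exact noHit_one hy0 (by rw [hCy]; exact n2)
        · -- δ odd, y odd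
          rw [ha, stepE_odd] at hnc'
          have hy2 : (y : ℤ) = 2 * (3 ^ d * s + a) + 1 := by rw [hy, hs, ha]; push_cast; ring
          have hymod : y % 2 = 1 := by omega
          have hyt : (((3 * y + 1) / 2 : ℕ) : ℤ) = 3 ^ (d + 1) * s + (3 * a + 2) := by
            have e1 : (3 : ℤ) ^ (d + 1) * s = 3 * (3 ^ d * s) := by ring
            rw [e1]; omega
          have hCy : C (C y) = (3 * y + 1) / 2 := CC_odd hymod
          obtain ⟨p, q, hpq, hC, n1, n2⟩ :=
            ih s ((3 * y + 1) / 2) (d + 1) (3 * a + 2) hyt (by omega) (by omega) hnc'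
          refine ⟨p + 1, q + 2, by omega, ?_, ?_, ?_⟩
          · rw [Function.iterate_succ_apply, Function.iterate_succ_apply,
              Function.iterate_succ_apply, hCx, hCy, hC]
          · exact noHit_one hx0 (by rw [hCx]; exact n1)
          · exact noHit_two hy0 hymod (by rw [hCy]; exact n2)
      · -- x odd
        have he : ¬ Even (x : ℤ) := by
          rw [Int.not_even_iff_odd, hs]; push_cast; exact ⟨s, rfl⟩
        rw [if_neg he] at hnc'
        have hxmod : x % 2 = 1 := by omega
        have hCx : C (C x) = (3 * x + 1) / 2 := CC_odd hxmod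
        have ex : (3 * (x : ℤ) + 1) / 2 = (((3 * x + 1) / 2 : ℕ) : ℤ) := by push_cast; ring_nf
        have ex' : (((3 * x + 1) / 2 : ℕ) : ℤ) = 3 * (s : ℤ) + 2 := by omega
        rcases Int.even_or_odd' δ with ⟨a, ha | ha⟩
        · -- δ even, y odd
          have hδe : Even δ := by rw [ha]; exact even_two_mul a
          rw [if_neg (fun h => h.2 hδe), ex, ha, stepO_even a h3 hh3] at hnc'
          have hy2 : (y : ℤ) = 2 * (3 ^ d * s + a + h3) + 1 := by
            rw [hy, hs, ha]; push_cast
            have : (3 : ℤ) ^ d * (2 * s + 1) = 2 * (3 ^ d * s) + 3 ^ d := by ring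
            rw [this, hh3]; ring
          have hymod : y % 2 = 1 := by omega
          have hyt : (((3 * y + 1) / 2 : ℕ) : ℤ)
              = 3 ^ d * (((3 * x + 1) / 2 : ℕ) : ℤ) + (3 * a - h3) := by
            rw [ex']
            have e1 : (3 : ℤ) ^ d * (3 * s + 2) = 3 * (3 ^ d * s) + 2 * 3 ^ d := by ring
            rw [e1]; omega
          have hCy : C (C y) = (3 * y + 1) / 2 := CC_odd hymod
          obtain ⟨p, q, hpq, hC, n1, n2⟩ :=
            ih ((3 * x + 1) / 2) ((3 * y + 1) / 2) d (3 * a - h3) hyt (by omega) (by omega) hnc'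
          refine ⟨p + 2, q + 2, by omega, ?_, ?_, ?_⟩
          · rw [Function.iterate_succ_apply, Function.iterate_succ_apply,
              Function.iterate_succ_apply, Function.iterate_succ_apply, hCx, hCy, hC]
          · exact noHit_two hx0 hxmod (by rw [hCx]; exact n1)
          · exact noHit_two hy0 hymod (by rw [hCy]; exact n2)
        · -- δ odd, y even
          have hδo : ¬ Even δ := by rw [Int.not_even_iff_odd, ha]; exact ⟨a, rfl⟩
          rcases Nat.eq_zero_or_pos d with hd | hd
          · subst hd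
            rw [if_pos ⟨rfl, hδo⟩, ha, stepO_odd_zero] at hnc'
            have hy2 : (y : ℤ) = x + (2 * a + 1) := by rw [hy, ha]; ring
            have hymod : y % 2 = 0 := by omega
            have hCy : C y = y / 2 := C_even hymod
            have exy : ((x : ℤ) + (2 * a + 1)) / 2 = ((y / 2 : ℕ) : ℤ) := by
              rw [← hy2]; push_cast; rfl
            rw [exy] at hnc'
            have hyt : (((3 * x + 1) / 2 : ℕ) : ℤ) = 3 ^ 1 * ((y / 2 : ℕ) : ℤ) + (-3 * a - 1) := by
              rw [pow_one]; omega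
            obtain ⟨p, q, hpq, hC, n1, n2⟩ :=
              ih (y / 2) ((3 * x + 1) / 2) 1 (-3 * a - 1) hyt (by omega) (by omega) hnc'
            refine ⟨q + 2, p + 1, by omega, ?_, ?_, ?_⟩
            · rw [Function.iterate_succ_apply, Function.iterate_succ_apply,
                Function.iterate_succ_apply, hCx, hCy, hC]
            · exact noHit_two hx0 hxmod (by rw [hCx]; exact n2)
            · exact noHit_one hy0 (by rw [hCy]; exact n1)
          · obtain ⟨e, rfl⟩ : ∃ e, d = e + 1 := ⟨d - 1, by omega⟩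
            obtain ⟨h4, hh4⟩ := pow_three_odd e
            rw [if_neg (fun h => Nat.succ_ne_zero e h.1), ex, ha, stepO_odd_succ a h4 hh4] at hnc'
            have hy2 : (y : ℤ) = 2 * (3 ^ (e + 1) * s + a + 1 + (3 * h4 + 1)) := by
              rw [hy, hs, ha]; push_cast
              have : (3 : ℤ) ^ (e + 1) * (2 * s + 1) = 2 * (3 ^ (e + 1) * s) + 3 * 3 ^ e := by ring
              rw [this, hh4]; ring
            have hymod : y % 2 = 0 := by omega
            have hCy : C y = y / 2 := C_even hymod
            have hyt : ((y / 2 : ℕ) : ℤ) = 3 ^ e * (((3 * x + 1) / 2 : ℕ) : ℤ) + (a - h4) := by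
              rw [ex']
              have e1 : (3 : ℤ) ^ e * (3 * s + 2) = 3 ^ (e + 1) * s + 2 * 3 ^ e := by ring
              rw [e1]; omega
            obtain ⟨p, q, hpq, hC, n1, n2⟩ :=
              ih ((3 * x + 1) / 2) (y / 2) e (a - h4) hyt (by omega) (by omega) hnc'
            refine ⟨p + 2, q + 1, by omega, ?_, ?_, ?_⟩
            · rw [Function.iterate_succ_apply, Function.iterate_succ_apply,
                Function.iterate_succ_apply, hCx, hCy, hC]
            · exact noHit_two hx0 hxmod (by rw [hCx]; exact n1)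
            · exact noHit_one hy0 (by rw [hCy]; exact n2)

/-- If `n` and `n + 1` coalesce early, they visit `1` at exactly the same times. -/
lemma same_hits (k n : ℕ) (hn : 2 ^ k < n) (h : ¬ nc k (n : ℤ) (0, 1)) :
    ∀ i, C^[i] n = 1 ↔ C^[i] (n + 1) = 1 := by
  obtain ⟨p, q, hpq, hC, n1, n2⟩ := coal k n (n + 1) 0 1 (by push_cast; ring) hn (by omega) h
  rw [add_zero] at hpq
  subst hpq
  intro i
  by_cases hi : i < p
  · exact ⟨fun h => absurd h (n1 i hi), fun h => absurd h (n2 i hi)⟩
  · obtain ⟨j, rfl⟩ : ∃ j, i = j + p := ⟨i - p, by omega⟩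
    rw [Function.iterate_add_apply, Function.iterate_add_apply, hC]

/-- For almost all `n`, the orbits of `n` and `n + 1` visit `1` at exactly the same times. -/
theorem density_zero (B : ℕ → Prop) [DecidablePred B]
    (hB : ∀ n, B n → ¬ ∀ i, C^[i] n = 1 ↔ C^[i] (n + 1) = 1) :
    Tendsto (fun N : ℕ => (((Finset.Icc 1 N).filter B).card : ℝ) / N) atTop (𝓝 0) := by
  classical
  have hcount : ∀ k N : ℕ, (((Finset.Icc 1 N).filter B).card : ℝ)
      ≤ N * U k (0, 1) + 2 * 2 ^ k + 1 := by
    intro k N
    have hsub : (Finset.Icc 1 N).filter B ⊆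
        Finset.range (2 ^ k + 1) ∪
        (Finset.range ((N / 2 ^ k + 1) * 2 ^ k)).filter (fun n : ℕ => nc k (n : ℤ) (0, 1)) := by
      intro n hn
      rw [Finset.mem_filter, Finset.mem_Icc] at hn
      rw [Finset.mem_union, Finset.mem_range, Finset.mem_filter, Finset.mem_range]
      by_cases h : n < 2 ^ k + 1
      · left; exact h
      · right
        constructor
        · have h1 : N < (N / 2 ^ k + 1) * 2 ^ k := by
            have := Nat.lt_div_mul_add (a := N) (b := 2 ^ k) (by positivity)
            rw [add_mul, one_mul]; exact this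
          omega
        · by_contra hnc
          exact hB n hn.2 (same_hits k n (by omega) hnc)
    have h1 := (Finset.card_le_card hsub).trans (Finset.card_union_le _ _)
    have h2 := block_count k (0, 1) (N / 2 ^ k + 1)
    have h3 := cnt_le k (0, 1)
    rw [Finset.card_range] at h1
    have h4 : (((Finset.Icc 1 N).filter B).card : ℝ)
        ≤ (2 ^ k + 1) + ((N / 2 ^ k : ℕ) + 1) * (2 ^ k * U k (0, 1)) := by
      have h5 : (((Finset.Icc 1 N).filter B).card : ℝ)
          ≤ ((2 ^ k + 1 + (N / 2 ^ k + 1) * cnt k (0, 1) : ℕ) : ℝ) := by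
        exact_mod_cast h1.trans (Nat.add_le_add_left h2 _)
      refine h5.trans ?_
      push_cast
      have : (0 : ℝ) ≤ (N / 2 ^ k : ℕ) + 1 := by positivity
      have := mul_le_mul_of_nonneg_left h3 this
      linarith
    refine h4.trans ?_
    have h6 : ((N / 2 ^ k : ℕ) : ℝ) * 2 ^ k ≤ N := by
      have := Nat.div_mul_le_self N (2 ^ k)
      exact_mod_cast this
    have hU0 := U_nonneg k (0, 1)
    have hU1 := U_le_one k (0, 1)
    have hp : (0 : ℝ) < 2 ^ k := by positivity
    have h7 := mul_le_mul_of_nonneg_right h6 hU0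
    have h8 := mul_le_mul_of_nonneg_left hU1 hp.le
    nlinarith
  rw [Metric.tendsto_atTop]
  intro ε hε
  have hU : Tendsto (fun k => U k (0, 1)) atTop (𝓝 0) := by
    have := U_tendsto (0, 1)
    rwa [u_eq_zero] at this
  obtain ⟨k, hk⟩ := ((tendsto_order.mp hU).2 (ε / 2) (by linarith)).exists
  obtain ⟨N0, hN0⟩ := exists_nat_gt ((2 * 2 ^ k + 1) / (ε / 2))
  refine ⟨N0 + 1, fun N hN => ?_⟩
  have hNpos : (0 : ℝ) < N := by
    have : 0 < N := by omega
    exact_mod_cast this
  rw [Real.dist_eq, sub_zero, abs_of_nonneg (by positivity), div_lt_iff₀ hNpos]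
  refine lt_of_le_of_lt (hcount k N) ?_
  have h1 : (2 * 2 ^ k + 1 : ℝ) < ε / 2 * N := by
    have h2 : (2 * 2 ^ k + 1 : ℝ) / (ε / 2) < N := by
      refine hN0.trans_le ?_
      have : N0 ≤ N := by omega
      exact_mod_cast this
    rw [div_lt_iff₀ (by linarith)] at h2
    linarith
  have h3 := mul_lt_mul_of_pos_left hk hNpos
  linarith

end Pool.Agent.H70.Collatz
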