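import Pool.Agent.H70.Collatz.Chain

/-!
The Lyapunov function of the pair process.
-/

namespace Pool.Agent.H70.Collatz

open Filter Topology

/-- Two-adic depth, truncated: the number of times `δ` can be halved, or `v + 1` if at least `v`. -/
def mm : ℕ → ℤ → ℕ
  | 0, _ => 1
  | v + 1, δ => if Even δ then 1 + mm v (δ / 2) else 0

lemma mm_even (v : ℕ) (a : ℤ) : mm (v + 1) (2 * a) = 1 + mm v a := by
  have h : Even (2 * a) := even_two_mul a
  rw [mm, if_pos h]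
  congr 2
  omega

lemma mm_odd (v : ℕ) (a : ℤ) : mm (v + 1) (2 * a + 1) = 0 := by
  have h : ¬ Even (2 * a + 1) := by
    rw [Int.not_even_iff_odd]; exact ⟨a, rfl⟩
  rw [mm, if_neg h]

lemma mm_le (v : ℕ) : ∀ δ : ℤ, mm v δ ≤ v + 1 := by
  induction v with
  | zero => intro δ; simp [mm]
  | succ v ih =>
    intro δ
    rw [mm]
    split_ifs
    · have := ih (δ / 2); omega
    · omega

lemma mm_key (k : ℕ) : ∀ (w δ : ℤ), Odd w →
    mm (k + 1) δ + mm (k + 1) (3 * δ - 2 ^ k * w) ≤ 2 * mm k δ := by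
  induction k with
  | zero =>
    intro w δ hw
    obtain ⟨c, rfl⟩ := hw
    rcases Int.even_or_odd' δ with ⟨a, ha | ha⟩
    · have e : 3 * δ - 2 ^ 0 * (2 * c + 1) = 2 * (3 * a - c - 1) + 1 := by rw [ha]; ring
      rw [e, mm_odd, ha, mm_even]
      simp [mm]
    · have e : 3 * δ - 2 ^ 0 * (2 * c + 1) = 2 * (3 * a - c + 1) := by rw [ha]; ring
      rw [e, ha, mm_odd, mm_even]
      simp [mm]
  | succ k ih =>
    intro w δ hw
    rcases Int.even_or_odd' δ with ⟨a, ha | ha⟩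
    · have e : 3 * δ - 2 ^ (k + 1) * w = 2 * (3 * a - 2 ^ k * w) := by rw [ha]; ring
      rw [e, ha, mm_even, mm_even, mm_even]
      have := ih w a hw
      omega
    · have e : 3 * δ - 2 ^ (k + 1) * w = 2 * (3 * a + 1 - 2 ^ k * w) + 1 := by rw [ha]; ring
      rw [e, ha, mm_odd, mm_odd]
      omega

/-- The exponent of two in `3 ^ d - 1`. -/
noncomputable def vv (d : ℕ) : ℕ := padicValNat 2 (3 ^ d - 1)

lemma three_pow_sub (d : ℕ) (hd : d ≠ 0) : ∃ k : ℕ, ∃ w : ℤ, vv d = k + 1 ∧ Odd w ∧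
    (3 : ℤ) ^ d = 2 ^ (k + 1) * w + 1 ∧ vv d ≤ 2 * d := by
  have h1 : 1 < 3 ^ d := Nat.one_lt_pow hd (by norm_num)
  have hne : 3 ^ d - 1 ≠ 0 := by omega
  have h2 : 2 ∣ 3 ^ d - 1 := by
    have : 3 ^ d % 2 = 1 := by
      rw [Nat.pow_mod]; norm_num
    omega
  have hv1 : 1 ≤ vv d := one_le_padicValNat_of_dvd hne h2
  have hdvd : 2 ^ vv d ∣ 3 ^ d - 1 := pow_padicValNat_dvd
  have hndvd : ¬ 2 ^ (vv d + 1) ∣ 3 ^ d - 1 := pow_succ_padicValNat_not_dvd hne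
  obtain ⟨w, hw⟩ := hdvd
  have hwodd : Odd w := by
    rw [← Nat.not_even_iff_odd]
    rintro ⟨c, hc⟩
    apply hndvd
    refine ⟨c, ?_⟩
    rw [hw, hc, pow_succ]; ring
  refine ⟨vv d - 1, (w : ℤ), by omega, by exact_mod_cast hwodd, ?_, ?_⟩
  · have e : vv d - 1 + 1 = vv d := by omega
    rw [e]
    have : 3 ^ d = 2 ^ vv d * w + 1 := by omega
    exact_mod_cast this
  · by_contra hcon
    push Not at hcon
    have h3 : 2 ^ (2 * d) < 2 ^ vv d := Nat.pow_lt_pow_right (by norm_num) hcon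
    have h4 : 2 ^ vv d ≤ 3 ^ d - 1 := Nat.le_of_dvd (by omega) ⟨w, hw⟩
    have h5 : 3 ^ d ≤ 2 ^ (2 * d) := by
      rw [pow_mul]; exact Nat.pow_le_pow_left (by norm_num) d
    omega

/-- Depth of a state. -/
noncomputable def dep (d : ℕ) (δ : ℤ) : ℝ := if d = 0 then 0 else (mm (vv d) δ : ℝ)

lemma dep_zero (δ : ℤ) : dep 0 δ = 0 := by simp [dep]

lemma dep_nonneg (d : ℕ) (δ : ℤ) : 0 ≤ dep d δ := by
  rw [dep]; split_ifs
  · exact le_rfl
  · positivity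

lemma dep_le (d : ℕ) (δ : ℤ) : dep d δ ≤ 2 * d + 1 := by
  rw [dep]; split_ifs with h
  · positivity
  · obtain ⟨k, w, _, _, _, h4⟩ := three_pow_sub d h
    have h5 := mm_le (vv d) δ
    have h6 : mm (vv d) δ ≤ 2 * d + 1 := by omega
    exact_mod_cast h6

lemma dep_odd (d : ℕ) (a : ℤ) : dep d (2 * a + 1) = 0 := by
  rw [dep]; split_ifs with h
  · rfl
  · obtain ⟨k, w, h1, _, _, _⟩ := three_pow_sub d h
    rw [h1, mm_odd]; simp

lemma dep_even (d : ℕ) (hd : d ≠ 0) (a h : ℤ) (hh : (3 : ℤ) ^ d = 2 * h + 1) :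
    dep d a + dep d (3 * a - h) ≤ 2 * (dep d (2 * a) - 1) := by
  obtain ⟨k, w, h1, h2, h3, _⟩ := three_pow_sub d hd
  simp only [dep]
  rw [if_neg hd, if_neg hd, if_neg hd, h1, mm_even]
  have e : h = 2 ^ k * w := by
    have : 2 * h = 2 * (2 ^ k * w) := by
      have : (2 : ℤ) ^ (k + 1) * w = 2 * (2 ^ k * w) := by ring
      omega
    omega
  rw [e]
  have := mm_key k w a h2
  have h5 : ((mm (k + 1) a + mm (k + 1) (3 * a - 2 ^ k * w) : ℕ) : ℝ) ≤ ((2 * mm k a : ℕ) : ℝ) :=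
    Nat.cast_le.mpr this
  push_cast at h5 ⊢
  linarith

/-- Size of a state: the square root of `|δ| / 3 ^ d`. -/
noncomputable def sg (d : ℕ) (δ : ℤ) : ℝ := Real.sqrt (|(δ : ℝ)| / 3 ^ d)

lemma sg_nonneg (d : ℕ) (δ : ℤ) : 0 ≤ sg d δ := Real.sqrt_nonneg _

lemma sg_sq (d : ℕ) (δ : ℤ) : sg d δ ^ 2 = |(δ : ℝ)| / 3 ^ d := by
  rw [sg, Real.sq_sqrt]; positivity

lemma sg_le_of {d d' : ℕ} {δ δ' : ℤ} (α β : ℝ) (hα : 0 ≤ α) (hβ : 0 ≤ β)
    (h : |(δ' : ℝ)| / 3 ^ d' ≤ α ^ 2 * (|(δ : ℝ)| / 3 ^ d) + β ^ 2) :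
    sg d' δ' ≤ α * sg d δ + β := by
  have h0 := sg_nonneg d δ
  rw [sg, Real.sqrt_le_iff]
  refine ⟨by positivity, h.trans ?_⟩
  rw [← sg_sq d δ]
  have : 0 ≤ 2 * α * β * sg d δ := by positivity
  nlinarith

lemma sg_half (d : ℕ) (a : ℤ) : sg d a ≤ 7072 / 10000 * sg d (2 * a) := by
  have h := sg_le_of (d := d) (d' := d) (δ := 2 * a) (δ' := a) (7072 / 10000) 0 (by norm_num)
    le_rfl ?_
  · simpa using h
  · have e : |((2 * a : ℤ) : ℝ)| = 2 * |(a : ℝ)| := by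
      push_cast; rw [abs_mul]; norm_num
    rw [e]
    have h1 : 0 ≤ |(a : ℝ)| / 3 ^ d := by positivity
    have e2 : 2 * |(a : ℝ)| / 3 ^ d = 2 * (|(a : ℝ)| / 3 ^ d) := by ring
    rw [e2]
    nlinarith

lemma sg_agreeO (d : ℕ) (a h : ℤ) (hh : (3 : ℤ) ^ d = 2 * h + 1) :
    sg d (3 * a - h) ≤ 12248 / 10000 * sg d (2 * a) + 7072 / 10000 := by
  apply sg_le_of
  · norm_num
  · norm_num
  · have hp : (0 : ℝ) < 3 ^ d := by positivity
    have hr : (3 : ℝ) ^ d = 2 * h + 1 := by exact_mod_cast hh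
    have h1 : |((3 * a - h : ℤ) : ℝ)| ≤ 3 / 2 * |((2 * a : ℤ) : ℝ)| + 1 / 2 * 3 ^ d := by
      push_cast
      have h2 : (3 * (a : ℝ) - h) = 3 / 2 * (2 * a) - h := by ring
      rw [h2]
      have h3 : |3 / 2 * (2 * (a : ℝ)) - h| ≤ |3 / 2 * (2 * (a : ℝ))| + |(h : ℝ)| := abs_sub _ _
      have h4 : |3 / 2 * (2 * (a : ℝ))| = 3 / 2 * |2 * (a : ℝ)| := by
        rw [abs_mul]; norm_num
      have h5 : |(h : ℝ)| ≤ 1 / 2 * 3 ^ d := by
        have h6 : 0 ≤ h := by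
          have : (1 : ℤ) ≤ 3 ^ d := one_le_pow₀ (by norm_num)
          omega
        have h7 : (0 : ℝ) ≤ h := by exact_mod_cast h6
        rw [abs_of_nonneg h7, hr]; linarith
      linarith
    have h2 : |((3 * a - h : ℤ) : ℝ)| / 3 ^ d ≤ 3 / 2 * (|((2 * a : ℤ) : ℝ)| / 3 ^ d) + 1 / 2 := by
      rw [div_le_iff₀ hp]
      have : (3 / 2 * (|((2 * a : ℤ) : ℝ)| / 3 ^ d) + 1 / 2) * 3 ^ d
          = 3 / 2 * |((2 * a : ℤ) : ℝ)| + 1 / 2 * 3 ^ d := by
        field_simp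
      rw [this]; exact h1
    have h3 : 0 ≤ |((2 * a : ℤ) : ℝ)| / 3 ^ d := by positivity
    nlinarith

lemma sg_agreeO_zero (a : ℤ) : sg 0 (3 * a) ≤ 12248 / 10000 * sg 0 (2 * a) := by
  have h := sg_le_of (d := 0) (d' := 0) (δ := 2 * a) (δ' := 3 * a) (12248 / 10000) 0 (by norm_num)
    le_rfl ?_
  · simpa using h
  · have e : |((2 * a : ℤ) : ℝ)| = 2 * |(a : ℝ)| := by
      push_cast; rw [abs_mul]; norm_num
    have e' : |((3 * a : ℤ) : ℝ)| = 3 * |(a : ℝ)| := by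
      push_cast; rw [abs_mul]; norm_num
    rw [e, e']
    have h1 : 0 ≤ |(a : ℝ)| := abs_nonneg _
    norm_num
    nlinarith

/-- Disagreement, upward: `2 δ' = 3 δ + 1` or `2 δ' = 1 - 3 δ`. -/
lemma sg_up (d : ℕ) (δ δ' : ℤ) (h : 2 * δ' = 3 * δ + 1 ∨ 2 * δ' = 1 - 3 * δ) :
    sg (d + 1) δ' ≤ 7072 / 10000 * sg d δ + 41 / 100 := by
  apply sg_le_of
  · norm_num
  · norm_num
  · have hp : (0 : ℝ) < 3 ^ d := by positivity
    have hp1 : (1 : ℝ) ≤ 3 ^ d := one_le_pow₀ (by norm_num)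
    have h1 : |(δ' : ℝ)| ≤ 3 / 2 * |(δ : ℝ)| + 1 / 2 := by
      rcases h with h | h
      · have hr : 2 * (δ' : ℝ) = 3 * δ + 1 := by exact_mod_cast h
        have h2 : (δ' : ℝ) = 3 / 2 * δ + 1 / 2 := by linarith
        rw [h2]
        have h3 : |3 / 2 * (δ : ℝ) + 1 / 2| ≤ |3 / 2 * (δ : ℝ)| + |(1 / 2 : ℝ)| := abs_add_le _ _
        have h4 : |3 / 2 * (δ : ℝ)| = 3 / 2 * |(δ : ℝ)| := by rw [abs_mul]; norm_num
        have h5 : |(1 / 2 : ℝ)| = 1 / 2 := by norm_num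
        linarith
      · have hr : 2 * (δ' : ℝ) = 1 - 3 * δ := by exact_mod_cast h
        have h2 : (δ' : ℝ) = 1 / 2 - 3 / 2 * δ := by linarith
        rw [h2]
        have h3 : |1 / 2 - 3 / 2 * (δ : ℝ)| ≤ |(1 / 2 : ℝ)| + |3 / 2 * (δ : ℝ)| := abs_sub _ _
        have h4 : |3 / 2 * (δ : ℝ)| = 3 / 2 * |(δ : ℝ)| := by rw [abs_mul]; norm_num
        have h5 : |(1 / 2 : ℝ)| = 1 / 2 := by norm_num
        linarith
    have h2 : |(δ' : ℝ)| / 3 ^ (d + 1) ≤ 1 / 2 * (|(δ : ℝ)| / 3 ^ d) + 1 / 6 := by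
      rw [div_le_iff₀ (by positivity), pow_succ]
      have : (1 / 2 * (|(δ : ℝ)| / 3 ^ d) + 1 / 6) * (3 ^ d * 3)
          = 3 / 2 * |(δ : ℝ)| + 1 / 2 * 3 ^ d := by
        field_simp; ring
      rw [this]; linarith
    have h3 : 0 ≤ |(δ : ℝ)| / 3 ^ d := by positivity
    nlinarith

/-- Disagreement, downward. -/
lemma sg_down (d : ℕ) (a h : ℤ) (hh : (3 : ℤ) ^ d = 2 * h + 1) :
    sg d (a - h) ≤ 12248 / 10000 * sg (d + 1) (2 * a + 1) + 7072 / 10000 := by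
  apply sg_le_of
  · norm_num
  · norm_num
  · have hp : (0 : ℝ) < 3 ^ d := by positivity
    have hr : (3 : ℝ) ^ d = 2 * h + 1 := by exact_mod_cast hh
    have h1 : |((a - h : ℤ) : ℝ)| ≤ 1 / 2 * |((2 * a + 1 : ℤ) : ℝ)| + 1 / 2 * 3 ^ d := by
      have h2 : ((a - h : ℤ) : ℝ) = 1 / 2 * ((2 * a + 1 : ℤ) : ℝ) - 1 / 2 * 3 ^ d := by
        rw [hr]; push_cast; ring
      rw [h2]
      have h3 : |1 / 2 * ((2 * a + 1 : ℤ) : ℝ) - 1 / 2 * 3 ^ d|
          ≤ |1 / 2 * ((2 * a + 1 : ℤ) : ℝ)| + |(1 / 2 * 3 ^ d : ℝ)| := abs_sub _ _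
      have h4 : |1 / 2 * ((2 * a + 1 : ℤ) : ℝ)| = 1 / 2 * |((2 * a + 1 : ℤ) : ℝ)| := by
        rw [abs_mul]; norm_num
      have h5 : |(1 / 2 * 3 ^ d : ℝ)| = 1 / 2 * 3 ^ d := abs_of_pos (by positivity)
      linarith
    have h2 : |((a - h : ℤ) : ℝ)| / 3 ^ d
        ≤ 3 / 2 * (|((2 * a + 1 : ℤ) : ℝ)| / 3 ^ (d + 1)) + 1 / 2 := by
      rw [div_le_iff₀ hp, pow_succ]
      have : (3 / 2 * (|((2 * a + 1 : ℤ) : ℝ)| / (3 ^ d * 3)) + 1 / 2) * 3 ^ d
          = 1 / 2 * |((2 * a + 1 : ℤ) : ℝ)| + 1 / 2 * 3 ^ d := by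
        field_simp
      rw [this]; exact h1
    have h3 : 0 ≤ |((2 * a + 1 : ℤ) : ℝ)| / 3 ^ (d + 1) := by positivity
    nlinarith

/-- The Lyapunov function. -/
noncomputable def W (z : ℕ × ℤ) : ℝ :=
  (19 / 20) ^ z.1 * sg z.1 z.2 + 36 / 100 * (19 / 20) ^ z.1 * dep z.1 z.2
    + 100000 * (1 - (39 / 40) ^ z.1) + z.1

/-- The exceptional set. -/
noncomputable def Fset : Finset (ℕ × ℤ) := {0} ×ˢ Finset.Icc (-100000000) 100000000

lemma W_nonneg (z : ℕ × ℤ) : 0 ≤ W z := by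
  rw [W]
  have h1 := sg_nonneg z.1 z.2
  have h2 := dep_nonneg z.1 z.2
  have h3 : (39 / 40 : ℝ) ^ z.1 ≤ 1 := pow_le_one₀ (by norm_num) (by norm_num)
  have h4 : (0 : ℝ) ≤ z.1 := by positivity
  have h5 : (0 : ℝ) ≤ (19 / 20) ^ z.1 := by positivity
  have h6 := mul_nonneg h5 h1
  have h7 := mul_nonneg h5 h2
  nlinarith

lemma W_sublevel (K : ℝ) : {z | W z ≤ K}.Finite := by
  set n := ⌈K⌉₊ with hn
  set B : ℝ := 3 ^ n * (K / (19 / 20) ^ n) ^ 2 with hB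
  have hsub : {z | W z ≤ K} ⊆ (Set.Iic n) ×ˢ (Set.Icc (-⌈B⌉) ⌈B⌉) := by
    rintro ⟨d, δ⟩ hz
    have hz' : W (d, δ) ≤ K := hz
    rw [W] at hz'
    simp only at hz'
    have h1 := sg_nonneg d δ
    have h2 := dep_nonneg d δ
    have h3 : (39 / 40 : ℝ) ^ d ≤ 1 := pow_le_one₀ (by norm_num) (by norm_num)
    have h4 : (0 : ℝ) ≤ d := by positivity
    have h5 : (0 : ℝ) < (19 / 20) ^ d := by positivity
    have h6 := mul_nonneg h5.le h1
    have h7 := mul_nonneg h5.le h2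
    have hdK : (d : ℝ) ≤ K := by nlinarith
    have hdn : d ≤ n := by
      have : (d : ℝ) ≤ (n : ℝ) := hdK.trans (Nat.le_ceil K)
      exact_mod_cast this
    have hsK : (19 / 20) ^ d * sg d δ ≤ K := by nlinarith
    have hrn : (19 / 20 : ℝ) ^ n ≤ (19 / 20) ^ d :=
      pow_le_pow_of_le_one (by norm_num) (by norm_num) hdn
    have hrn0 : (0 : ℝ) < (19 / 20) ^ n := by positivity
    have hsK2 : sg d δ ≤ K / (19 / 20) ^ n := by
      rw [le_div_iff₀ hrn0]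
      have := mul_le_mul_of_nonneg_left hrn h1
      linarith
    have hsq : sg d δ ^ 2 ≤ (K / (19 / 20) ^ n) ^ 2 := pow_le_pow_left₀ h1 hsK2 2
    rw [sg_sq, div_le_iff₀ (by positivity)] at hsq
    have h3n : (3 : ℝ) ^ d ≤ 3 ^ n := pow_le_pow_right₀ (by norm_num) hdn
    have hδ : |(δ : ℝ)| ≤ B := by
      refine hsq.trans ?_
      rw [hB, mul_comm]
      exact mul_le_mul_of_nonneg_right h3n (sq_nonneg _)
    have hδ' : |(δ : ℝ)| ≤ (⌈B⌉ : ℝ) := hδ.trans (Int.le_ceil B)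
    have hδ'' : |δ| ≤ ⌈B⌉ := by exact_mod_cast hδ'
    exact ⟨hdn, abs_le.mp hδ''⟩
  exact ((Set.finite_Iic n).prod (Set.finite_Icc _ _)).subset hsub

lemma bern (e : ℕ) : (19 / 20 : ℝ) ^ e * (38 + e) ≤ 38 * (39 / 40) ^ e := by
  have h1 : 1 + (e : ℝ) * (1 / 38) ≤ (1 + 1 / 38) ^ e := by
    apply one_add_mul_le_pow; norm_num
  have h2 : (39 / 40 : ℝ) ^ e = (19 / 20) ^ e * (1 + 1 / 38) ^ e := by
    rw [← mul_pow]; norm_num
  rw [h2]
  have h3 : (0 : ℝ) < (19 / 20) ^ e := by positivity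
  have h4 : (38 + (e : ℝ)) ≤ 38 * (1 + 1 / 38) ^ e := by linarith
  have := mul_le_mul_of_nonneg_left h4 h3.le
  linarith

lemma W_super (z : ℕ × ℤ) (hzF : z ∉ Fset) : (W (stepE z) + W (stepO z)) / 2 ≤ W z := by
  obtain ⟨d, δ⟩ := z
  rcases Int.even_or_odd' δ with ⟨a, ha | ha⟩
  · -- agreement
    subst ha
    obtain ⟨h, hh⟩ := pow_three_odd d
    rw [stepE_even, stepO_even a h hh]
    simp only [W]
    have s1 := sg_half d a
    have s0 := sg_nonneg d (2 * a)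
    rcases Nat.eq_zero_or_pos d with hd | hd
    · subst hd
      have hh0 : h = 0 := by
        have : (1 : ℤ) = 2 * h + 1 := by simpa using hh
        omega
      subst hh0
      have s2 := sg_agreeO_zero a
      rw [dep_zero, dep_zero, dep_zero, sub_zero]
      norm_num
      norm_num at s1 s2
      linarith
    · have s2 := sg_agreeO d a h hh
      have s3 := dep_even d hd.ne' a h hh
      have hP : (0 : ℝ) < (19 / 20) ^ d := by positivity
      set P : ℝ := (19 / 20) ^ d with hPdef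
      have t1 := mul_le_mul_of_nonneg_left s1 hP.le
      have t2 := mul_le_mul_of_nonneg_left s2 hP.le
      have t3 := mul_le_mul_of_nonneg_left s3 hP.le
      have t4 := mul_nonneg hP.le s0
      nlinarith
  · -- disagreement
    subst ha
    rcases Nat.eq_zero_or_pos d with hd | hd
    · subst hd
      rw [stepE_odd, stepO_odd_zero, zero_add]
      simp only [W]
      have s1 := sg_up 0 (2 * a + 1) (3 * a + 2) (Or.inl (by ring))
      have s2 := sg_up 0 (2 * a + 1) (-3 * a - 1) (Or.inr (by ring))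
      rw [zero_add] at s1 s2
      have s3 := dep_le 1 (3 * a + 2)
      have s4 := dep_le 1 (-3 * a - 1)
      rw [dep_zero]
      have hbig : (10000 : ℝ) ≤ sg 0 (2 * a + 1) := by
        have h1 : ¬ (-100000000 ≤ 2 * a + 1 ∧ 2 * a + 1 ≤ 100000000) := by
          intro h2
          apply hzF
          simp only [Fset, Finset.mem_product, Finset.mem_singleton, Finset.mem_Icc]
          exact ⟨trivial, h2⟩
        have h2 : (100000000 : ℤ) ≤ |2 * a + 1| := by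
          rcases abs_cases (2 * a + 1) with ⟨h3, _⟩ | ⟨h3, _⟩ <;> omega
        have h3 : (100000000 : ℝ) ≤ |((2 * a + 1 : ℤ) : ℝ)| := by exact_mod_cast h2
        rw [sg]
        apply Real.le_sqrt_of_sq_le
        rw [pow_zero, div_one]
        norm_num
        norm_num at h3
        exact h3
      generalize sg 1 (-3 * a - 1) = A at *
      generalize dep 1 (-3 * a - 1) = D at *
      norm_num at s3 s4 ⊢
      linarith
    · obtain ⟨e, rfl⟩ : ∃ e, d = e + 1 := ⟨d - 1, by omega⟩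
      obtain ⟨h, hh⟩ := pow_three_odd e
      rw [stepE_odd, stepO_odd_succ a h hh]
      simp only [W]
      rw [dep_odd]
      have s0 := sg_nonneg (e + 1) (2 * a + 1)
      have s1 := sg_up (e + 1) (2 * a + 1) (3 * a + 2) (Or.inl (by ring))
      have s2 := sg_down e a h hh
      have s3 := dep_le (e + 1 + 1) (3 * a + 2)
      have s4 := dep_le e (a - h)
      have hb := bern e
      have hP : (0 : ℝ) < (19 / 20) ^ e := by positivity
      have e1 : (19 / 20 : ℝ) ^ (e + 1 + 1) = 361 / 400 * (19 / 20) ^ e := by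
        rw [pow_succ, pow_succ]; ring
      have e2 : (19 / 20 : ℝ) ^ (e + 1) = 19 / 20 * (19 / 20) ^ e := by
        rw [pow_succ]; ring
      have e3 : (39 / 40 : ℝ) ^ (e + 1 + 1) = 1521 / 1600 * (39 / 40) ^ e := by
        rw [pow_succ, pow_succ]; ring
      have e4 : (39 / 40 : ℝ) ^ (e + 1) = 39 / 40 * (39 / 40) ^ e := by
        rw [pow_succ]; ring
      rw [e1, e2, e3, e4]
      push_cast at s3 ⊢
      set P : ℝ := (19 / 20) ^ e with hPdef
      set Q : ℝ := (39 / 40) ^ e with hQdef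
      have he0 : (0 : ℝ) ≤ e := by positivity
      have t1 := mul_le_mul_of_nonneg_left s1 hP.le
      have t2 := mul_le_mul_of_nonneg_left s2 hP.le
      have t3 := mul_le_mul_of_nonneg_left s3 hP.le
      have t4 := mul_le_mul_of_nonneg_left s4 hP.le
      have t5 := mul_nonneg hP.le s0
      have t6 := mul_nonneg hP.le he0
      nlinarith

/-- `(0, 0)` is reached almost surely from every state. -/
theorem u_eq_zero : ∀ z, u z = 0 :=
  u_eq_zero_of_lyapunov Fset W W_nonneg W_sublevel (fun z h _ => W_super z h)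

end Pool.Agent.H70.Collatz
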